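import Pool.Agent.Lib_helper82.CN.Defs

set_option autoImplicit false

namespace Pool.Agent.CN

open NumberField IsDedekindDomain

theorem nk_le_two {n d : ℕ} (h : Nat.totient n ≤ 2) (hn : 0 < n) (hd : d ∣ n) :
    Nat.totient d ≤ 2 :=
  (Nat.le_of_dvd (Nat.totient_pos.2 hn) (Nat.totient_dvd_of_dvd hd)).trans h

theorem nk_small {n : ℕ} (h : Nat.totient n ≤ 2) (hn : 0 < n) : n ≤ 12 := by
  have h8 : ¬ 2 ^ 3 ∣ n := by
    intro hd
    have h1 := nk_le_two h hn hd
    have h2 : Nat.totient (2 ^ 3) = 4 := by decide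
    omega
  have h9 : ¬ 3 ^ 2 ∣ n := by
    intro hd
    have h1 := nk_le_two h hn hd
    have h2 : Nat.totient (3 ^ 2) = 6 := by decide
    omega
  have hdvd : n ∣ 12 := by
    rw [← Nat.factorization_prime_le_iff_dvd hn.ne' (by norm_num)]
    intro p hp
    by_cases h2 : p = 2
    · subst h2
      have a1 : 2 ≤ Nat.factorization 12 2 :=
        (hp.pow_dvd_iff_le_factorization (by norm_num)).1 (by norm_num)
      have a2 : ¬ 3 ≤ Nat.factorization n 2 := fun hc =>
        h8 ((hp.pow_dvd_iff_le_factorization hn.ne').2 hc)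
      omega
    · by_cases h3 : p = 3
      · subst h3
        have a1 : 1 ≤ Nat.factorization 12 3 :=
          (hp.pow_dvd_iff_le_factorization (by norm_num)).1 (by norm_num)
        have a2 : ¬ 2 ≤ Nat.factorization n 3 := fun hc =>
          h9 ((hp.pow_dvd_iff_le_factorization hn.ne').2 hc)
        omega
      · have a1 : ¬ p ∣ n := by
          intro hd
          have b1 := nk_le_two h hn hd
          rw [Nat.totient_prime hp] at b1
          have b2 := hp.two_le
          omega
        rw [Nat.factorization_eq_zero_of_not_dvd a1]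
        exact Nat.zero_le _
  exact Nat.le_of_dvd (by norm_num) hdvd

theorem nk_torsion (K : Type) [Field K] [NumberField K] (hK : Module.finrank ℚ K = 2) :
    2 ≤ Units.torsionOrder K ∧ Units.torsionOrder K ≤ 12 := by
  constructor
  · have h1 := Units.even_torsionOrder K
    have h2 := Units.torsionOrder_pos K
    obtain ⟨k, hk⟩ := h1
    omega
  · obtain ⟨μ, hμ⟩ : ∃ μ : Units.torsion K, orderOf μ = Units.torsionOrder K :=
      IsCyclic.exists_ofOrder_eq_natCard
    rw [← IsPrimitiveRoot.iff_orderOf, ← IsPrimitiveRoot.coe_submonoidClass_iff,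
      ← IsPrimitiveRoot.coe_units_iff] at hμ
    replace hμ := hμ.map_of_injective (FaithfulSMul.algebraMap_injective (𝓞 K) K)
    apply nk_small _ (Units.torsionOrder_pos K)
    have h1 := Polynomial.cyclotomic_eq_minpoly_rat hμ (Units.torsionOrder_pos K)
    rw [← Polynomial.natDegree_cyclotomic (Units.torsionOrder K) ℚ, h1, ← hK]
    exact minpoly.natDegree_le _

theorem nk_places (K : Type) [Field K] [NumberField K] (hK : Module.finrank ℚ K = 2) :
    (InfinitePlace.nrRealPlaces K = 2 ∧ InfinitePlace.nrComplexPlaces K = 0) ∨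
    (InfinitePlace.nrRealPlaces K = 0 ∧ InfinitePlace.nrComplexPlaces K = 1) := by
  have h := InfinitePlace.card_add_two_mul_card_eq_rank K
  rw [hK] at h
  omega

theorem nk_reg (K : Type) [Field K] [NumberField K] (hK : Module.finrank ℚ K = 2)
    (hd : discr K < 0) : Units.regulator K = 1 := by
  have h1 := NumberField.sign_discr K
  rw [Int.sign_eq_neg_one_of_neg hd] at h1
  have h2 : InfinitePlace.nrComplexPlaces K = 1 ∧ InfinitePlace.nrRealPlaces K = 0 := by
    rcases nk_places K hK with h | h
    · rw [h.2] at h1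
      norm_num at h1
    · exact ⟨h.2, h.1⟩
  have h3 : Fintype.card (InfinitePlace K) = 1 := by
    rw [InfinitePlace.card_eq_nrRealPlaces_add_nrComplexPlaces, h2.1, h2.2]
  have h5 : IsEmpty {w : InfinitePlace K // w ≠ Units.dirichletUnitTheorem.w₀} :=
    ⟨fun w => w.2 (Fintype.card_le_one_iff.1 h3.le _ _)⟩
  classical
  rw [Units.regulator_eq_det', Matrix.det_isEmpty, abs_one]

/-- block NK: the residue -/
theorem res_quad (K : Type) [Field K] [NumberField K] (hK : Module.finrank ℚ K = 2) :
    (discr K < 0 → Units.regulator K = 1) ∧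
    1 / 12 * (classNumber K * Units.regulator K) ≤
      dedekindZeta_residue K * Real.sqrt |(discr K : ℝ)| ∧
    dedekindZeta_residue K * Real.sqrt |(discr K : ℝ)| ≤
      4 * (classNumber K * Units.regulator K) := by
  refine ⟨nk_reg K hK, ?_⟩
  obtain ⟨w1, w2⟩ := nk_torsion K hK
  have hR := Units.regulator_pos K
  have hh : (0 : ℝ) < classNumber K := Nat.cast_pos.2 (classNumber_pos K)
  have hD : (0 : ℝ) < Real.sqrt |(discr K : ℝ)| :=
    Real.sqrt_pos.2 (abs_pos.2 (Int.cast_ne_zero.2 (discr_ne_zero K)))
  have hw1 : (2 : ℝ) ≤ Units.torsionOrder K := by exact_mod_cast w1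
  have hw2 : (Units.torsionOrder K : ℝ) ≤ 12 := by exact_mod_cast w2
  have hw0 : (0 : ℝ) < Units.torsionOrder K := by linarith
  have key : dedekindZeta_residue K * Real.sqrt |(discr K : ℝ)| =
      (2 ^ InfinitePlace.nrRealPlaces K * (2 * Real.pi) ^ InfinitePlace.nrComplexPlaces K) *
        (classNumber K * Units.regulator K) / Units.torsionOrder K := by
    rw [dedekindZeta_residue_def]
    field_simp
  have hc : (4 : ℝ) ≤ 2 ^ InfinitePlace.nrRealPlaces K *
        (2 * Real.pi) ^ InfinitePlace.nrComplexPlaces K ∧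
      2 ^ InfinitePlace.nrRealPlaces K *
        (2 * Real.pi) ^ InfinitePlace.nrComplexPlaces K ≤ (8 : ℝ) := by
    have p3 := Real.pi_gt_three
    have p4 := Real.pi_le_four
    rcases nk_places K hK with h | h
    · rw [h.1, h.2]
      norm_num
    · rw [h.1, h.2]
      constructor
      · simp only [pow_zero, pow_one, one_mul]
        linarith
      · simp only [pow_zero, pow_one, one_mul]
        linarith
  set c : ℝ := 2 ^ InfinitePlace.nrRealPlaces K *
        (2 * Real.pi) ^ InfinitePlace.nrComplexPlaces K with hcdef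
  have hp : (0 : ℝ) < classNumber K * Units.regulator K := mul_pos hh hR
  rw [key]
  constructor
  · rw [le_div_iff₀ hw0]
    nlinarith
  · rw [div_le_iff₀ hw0]
    nlinarith

end Pool.Agent.CN
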